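import Mathlib
import Pool.Agent.H72.CG.Pair

/-!
Families of rough integers in one residue class modulo `q` whose labels exhaust a finite abelian group.
-/

set_option autoImplicit false

open Finset

namespace Pool.Agent.H72.AP

open Pool.Agent.H72.CG (grow)

/-- all prime factors are larger than `Y` -/
def RoughN (Y : ℕ) (n : ℕ) : Prop := ∀ p : ℕ, p.Prime → p ∣ n → Y < p

theorem RoughN.mul {Y m n : ℕ} (hm : RoughN Y m) (hn : RoughN Y n) : RoughN Y (m * n) := by
  intro p hp hd
  rcases (hp.dvd_mul).1 hd with h | h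
  · exact hm p hp h
  · exact hn p hp h

theorem family {G : Type} [AddCommGroup G] [Fintype G] [DecidableEq G] (q Y : ℕ) (y : ℝ)
    (hy : 1 ≤ y) (F : ℕ → G) (hF : ∀ m n : ℕ, m ≠ 0 → n ≠ 0 → F (m * n) = F m + F n)
    (hpair : ∀ H : AddSubgroup G, H ≠ ⊤ → ∃ u v : ℕ, 0 < u ∧ 0 < v ∧ (u : ℝ) ≤ y ∧ (v : ℝ) ≤ y ∧
      RoughN Y u ∧ RoughN Y v ∧ u.Coprime q ∧ u ≡ v [MOD q] ∧ F u - F v ∉ H) :
    ∀ n : ℕ, ∃ 𝒱 : Finset ℕ, 𝒱.Nonempty ∧ 𝒱.card ≤ 2 ^ n ∧
      (∀ V ∈ 𝒱, 0 < V ∧ (V : ℝ) ≤ y ^ n ∧ RoughN Y V ∧ V.Coprime q) ∧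
      (∀ V ∈ 𝒱, ∀ V' ∈ 𝒱, V ≡ V' [MOD q]) ∧
      min (Fintype.card G) (n + 1) ≤ (𝒱.image F).card ∧
      ((∀ x : G, x + x = 0) → min (Fintype.card G) (2 ^ n) ≤ (𝒱.image F).card ∧
        ∀ x y z : G, x ∈ 𝒱.image F → y ∈ 𝒱.image F → z ∈ 𝒱.image F → x - y + z ∈ 𝒱.image F) := by
  intro n
  induction n with
  | zero =>
    refine ⟨{1}, singleton_nonempty _, by simp, ?_, ?_, by simp, ?_⟩
    · intro V hV
      rw [mem_singleton] at hV
      subst hV
      refine ⟨one_pos, by simp, ?_, Nat.coprime_one_left q⟩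
      intro p hp hd
      exact absurd (Nat.dvd_one.1 hd) hp.one_lt.ne'
    · intro V hV V' hV'
      rw [mem_singleton] at hV hV'
      rw [hV, hV']
    · intro _
      refine ⟨by simp, ?_⟩
      intro x y z hx hy hz
      rw [image_singleton, mem_singleton] at hx hy hz ⊢
      rw [hx, hy, hz, sub_self, zero_add]
  | succ n ih =>
    obtain ⟨𝒱, h0, h1, h2, h3, h4, h5⟩ := ih
    by_cases hfull : 𝒱.image F = univ
    · refine ⟨𝒱, h0, h1.trans (Nat.pow_le_pow_right (by norm_num) (Nat.le_succ n)), ?_, h3, ?_, ?_⟩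
      · intro V hV
        obtain ⟨g1, g2, g3, g4⟩ := h2 V hV
        exact ⟨g1, g2.trans (pow_le_pow_right₀ hy (Nat.le_succ n)), g3, g4⟩
      · rw [hfull, card_univ]
        exact min_le_left _ _
      · intro _
        rw [hfull, card_univ]
        exact ⟨min_le_left _ _, fun _ _ _ _ _ _ => mem_univ _⟩
    · obtain ⟨H, hH, hgrow, hgrow2⟩ := grow (𝒱.image F) (h0.image F) hfull
      obtain ⟨u, v, hu0, hv0, huy, hvy, hru, hrv, hcu, huv, hsub⟩ := hpair H hH
      have hcv : v.Coprime q := by
        have h := huv.gcd_eq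
        unfold Nat.Coprime at hcu ⊢
        rw [← h]
        exact hcu
      have hUp : ∀ s ∈ ({v, u} : Finset ℕ), 0 < s ∧ (s : ℝ) ≤ y ∧ RoughN Y s ∧ s.Coprime q := by
        intro s hs
        rw [mem_insert, mem_singleton] at hs
        rcases hs with rfl | rfl
        · exact ⟨hv0, hvy, hrv, hcv⟩
        · exact ⟨hu0, huy, hru, hcu⟩
      have hUc : ∀ s ∈ ({v, u} : Finset ℕ), ∀ t ∈ ({v, u} : Finset ℕ), s ≡ t [MOD q] := by
        intro s hs t ht
        rw [mem_insert, mem_singleton] at hs ht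
        rcases hs with rfl | rfl <;> rcases ht with rfl | rfl
        · exact Nat.ModEq.refl _
        · exact huv.symm
        · exact huv
        · exact Nat.ModEq.refl _
      have hmem : ∀ x : ℕ, x ∈ 𝒱.image (fun V => v * V) ∪ 𝒱.image (fun V => u * V) ↔
          ∃ s ∈ ({v, u} : Finset ℕ), ∃ V ∈ 𝒱, s * V = x := by
        intro x
        rw [mem_union, mem_image, mem_image]
        constructor
        · rintro (⟨V, hV, rfl⟩ | ⟨V, hV, rfl⟩)
          · exact ⟨v, by simp, V, hV, rfl⟩
          · exact ⟨u, by simp, V, hV, rfl⟩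
        · rintro ⟨s, hs, V, hV, rfl⟩
          rw [mem_insert, mem_singleton] at hs
          rcases hs with rfl | rfl
          · exact Or.inl ⟨V, hV, rfl⟩
          · exact Or.inr ⟨V, hV, rfl⟩
      have himg : (𝒱.image (fun V => v * V) ∪ 𝒱.image (fun V => u * V)).image F =
            (𝒱.image F).image (fun x => F v + x) ∪ (𝒱.image F).image (fun x => F u + x) := by
        rw [image_union, image_image, image_image, image_image, image_image]
        congr 1
        · apply image_congr
          intro V hV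
          exact hF _ _ hv0.ne' (h2 V hV).1.ne'
        · apply image_congr
          intro V hV
          exact hF _ _ hu0.ne' (h2 V hV).1.ne'
      refine ⟨𝒱.image (fun V => v * V) ∪ 𝒱.image (fun V => u * V), ?_, ?_, ?_, ?_, ?_, ?_⟩
      · exact (h0.image _).mono subset_union_left
      · refine (card_union_le _ _).trans ?_
        rw [pow_succ]
        have g1 := card_image_le (s := 𝒱) (f := fun V => v * V)
        have g2 := card_image_le (s := 𝒱) (f := fun V => u * V)
        omega
      · intro x hx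
        obtain ⟨s, hs, V, hV, rfl⟩ := (hmem x).1 hx
        obtain ⟨g1, g2, g3, g4⟩ := hUp s hs
        obtain ⟨l1, l2, l3, l4⟩ := h2 V hV
        refine ⟨Nat.mul_pos g1 l1, ?_, g3.mul l3, Nat.Coprime.mul_left g4 l4⟩
        rw [pow_succ, mul_comm (y ^ n)]
        push_cast
        exact mul_le_mul g2 l2 (Nat.cast_nonneg _) (by linarith)
      · intro x hx x' hx'
        obtain ⟨s, hs, V, hV, rfl⟩ := (hmem x).1 hx
        obtain ⟨s', hs', V', hV', rfl⟩ := (hmem x').1 hx'
        exact (hUc s hs s' hs').mul (h3 V hV V' hV')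
      · rw [himg]
        have := hgrow (F v) (F u) hsub
        omega
      · intro h2x
        obtain ⟨h6, h7⟩ := h5 h2x
        rw [himg]
        constructor
        · have := hgrow2 h7 (F v) (F u) hsub
          rw [pow_succ]
          omega
        · have hsub' : ∀ x y : G, x - y = x + y := by
            intro x y
            rw [sub_eq_add_neg, neg_eq_of_add_eq_zero_left (h2x y)]
          have hm : ∀ x : G, x ∈ (𝒱.image F).image (fun x => F v + x) ∪
              (𝒱.image F).image (fun x => F u + x) ↔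
              ∃ s ∈ ({F v, F u} : Finset G), ∃ t ∈ 𝒱.image F, s + t = x := by
            intro x
            rw [mem_union, mem_image, mem_image]
            constructor
            · rintro (⟨t, ht, rfl⟩ | ⟨t, ht, rfl⟩)
              · exact ⟨F v, by simp, t, ht, rfl⟩
              · exact ⟨F u, by simp, t, ht, rfl⟩
            · rintro ⟨s, hs, t, ht, rfl⟩
              rw [mem_insert, mem_singleton] at hs
              rcases hs with rfl | rfl
              · exact Or.inl ⟨t, ht, rfl⟩
              · exact Or.inr ⟨t, ht, rfl⟩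
          have hs3 : ∀ s1 ∈ ({F v, F u} : Finset G), ∀ s2 ∈ ({F v, F u} : Finset G),
              ∀ s3 ∈ ({F v, F u} : Finset G), s1 - s2 + s3 ∈ ({F v, F u} : Finset G) := by
            have k1 : ∀ α β : G, α - β + α = β := by
              intro α β
              rw [hsub', add_right_comm, h2x, zero_add]
            intro s1 g1 s2 g2 s3 g3
            rw [mem_insert, mem_singleton] at g1 g2 g3 ⊢
            rcases g1 with g1 | g1 <;> rcases g2 with g2 | g2 <;> rcases g3 with g3 | g3 <;>
              rw [g1, g2, g3] <;> simp [k1]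
          intro x y z hx hy hz
          obtain ⟨s1, g1, t1, l1, rfl⟩ := (hm x).1 hx
          obtain ⟨s2, g2, t2, l2, rfl⟩ := (hm y).1 hy
          obtain ⟨s3, g3, t3, l3, rfl⟩ := (hm z).1 hz
          refine (hm _).2 ⟨s1 - s2 + s3, hs3 s1 g1 s2 g2 s3 g3, t1 - t2 + t3,
            h7 t1 t2 t3 l1 l2 l3, ?_⟩
          abel

end Pool.Agent.H72.AP
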