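import Mathlib
import Pool.Agent.H72.CG.Sieve
import Pool.Agent.H72.AP.Family

/-!
Rough integers in residue classes to large moduli: many rough `w ≡ b` modulo `q`, and pairs of rough
integers `c₀ + m t`, `c₁ + m t`.
-/

set_option autoImplicit false

open Finset

namespace Pool.Agent.H72.AP

open Pool.Agent.H72.CG (SVG)

theorem exists_dvd (l : ℕ) (hl : l.Prime) (m c : ℤ) (h : ¬ (l : ℤ) ∣ m) :
    ∃ s : ℤ, (l : ℤ) ∣ c + m * s := by
  have hc : IsCoprime (l : ℤ) m := by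
    rw [Int.isCoprime_iff_gcd_eq_one]
    have h1 : l.Coprime m.natAbs := (Nat.Prime.coprime_iff_not_dvd hl).2 (fun hd =>
      h (Int.natCast_dvd.2 hd))
    simpa [Int.gcd] using h1
  obtain ⟨a, b, hab⟩ := hc
  refine ⟨-(b * c), ⟨a * c, ?_⟩⟩
  linear_combination (-c) * hab

/-- many rough integers in a reduced class modulo `q` -/
theorem many_rough {C : ℕ} (hS : SVG 1 C) (q : ℕ) (hq : 0 < q) (Y : ℕ) (hY : 2 ≤ Y) (b : ℕ)
    (hb : b.Coprime q) (T : ℕ) (hT : Y ^ C ≤ T) :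
    ∃ W : Finset ℕ, T ≤ Y ^ C * W.card ∧ ∀ w ∈ W, w ≡ b [MOD q] ∧ 1 < w ∧ w ≤ 2 * q * (T + 1) ∧
      RoughN Y w := by
  classical
  obtain ⟨b', hb1, hb2, hb3⟩ : ∃ b' : ℕ, b' ≡ b [MOD q] ∧ b'.Coprime (2 * q) ∧ b' < 2 * q := by
    obtain ⟨c, hc1, hc2⟩ : ∃ c : ℕ, c ≡ b [MOD q] ∧ c.Coprime (2 * q) := by
      have key : ∀ c : ℕ, c ≡ b [MOD q] → Odd c → c.Coprime (2 * q) := by
        intro c h1 h2
        refine Nat.Coprime.mul_right (Nat.coprime_two_right.2 h2) ?_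
        have h3 := h1.gcd_eq
        unfold Nat.Coprime at hb ⊢
        rw [h3]
        exact hb
      rcases Nat.even_or_odd b with h | h
      · have hqo : Odd q := by
          rw [← Nat.not_even_iff_odd]
          intro h2
          have h3 : 2 ∣ Nat.gcd b q := Nat.dvd_gcd h.two_dvd h2.two_dvd
          rw [hb] at h3
          omega
        refine ⟨b + q, ?_, key _ ?_ (h.add_odd hqo)⟩ <;> simp [Nat.ModEq]
      · exact ⟨b, Nat.ModEq.refl _, key b (Nat.ModEq.refl _) h⟩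
    refine ⟨c % (2 * q), ?_, ?_, Nat.mod_lt _ (by omega)⟩
    · have h1 : c % (2 * q) ≡ c [MOD 2 * q] := Nat.mod_modEq _ _
      exact (h1.of_mul_left 2).trans hc1
    · have h1 : c % (2 * q) ≡ c [MOD 2 * q] := Nat.mod_modEq _ _
      have h3 := h1.gcd_eq
      unfold Nat.Coprime at hc2 ⊢
      rw [h3]
      exact hc2
  have hex : ∀ l : ℕ, ∃ s : ℤ, l.Prime → ¬ (l : ℤ) ∣ ((2 * q : ℕ) : ℤ) →
      (l : ℤ) ∣ (b' : ℤ) + ((2 * q : ℕ) : ℤ) * s := by
    intro l
    by_cases h : l.Prime ∧ ¬ (l : ℤ) ∣ ((2 * q : ℕ) : ℤ)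
    · obtain ⟨s, hs⟩ := exists_dvd l h.1 _ (b' : ℤ) h.2
      exact ⟨s, fun _ _ => hs⟩
    · exact ⟨0, fun h1 h2 => absurd ⟨h1, h2⟩ h⟩
  choose s hs using hex
  obtain ⟨S, hSdef⟩ : ∃ S : ℕ → Finset ℤ, S = fun l : ℕ => if (l : ℤ) ∣ ((2 * q : ℕ) : ℤ) then ∅ else
    if l ≤ 2 then ∅ else {s l} := ⟨_, rfl⟩
  have hmain := hS Y hY S (by
    intro l _
    rw [hSdef]
    dsimp only
    split_ifs <;> simp) (by
    intro l _ hl2
    rw [hSdef]
    dsimp only
    split_ifs with h1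
    · rfl
    · rfl) 1 T hT
  obtain ⟨Z, hZdef⟩ : ∃ Z : Finset ℕ, Z = (Finset.Ico 1 (1 + T)).filter (fun t : ℕ =>
    ∀ l : ℕ, l.Prime → l ≤ Y → ∀ e ∈ S l, ¬ (l : ℤ) ∣ (t : ℤ) - e) := ⟨_, rfl⟩
  have hZ : {t : ℤ | 1 ≤ t ∧ t < 1 + T ∧
      ∀ l : ℕ, l.Prime → l ≤ Y → ∀ e ∈ S l, ¬ (l : ℤ) ∣ t - e}.ncard ≤ Z.card := by
    rw [← Set.ncard_coe_finset]
    refine Set.ncard_le_ncard_of_injOn (fun t : ℤ => t.toNat) ?_ ?_ (Finset.finite_toSet _)
    · rintro t ⟨h1, h2, h3⟩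
      have e1 : ((t.toNat : ℕ) : ℤ) = t := Int.toNat_of_nonneg (by omega)
      rw [hZdef, mem_coe, mem_filter, mem_Ico]
      refine ⟨⟨by omega, by omega⟩, ?_⟩
      intro l hl hlY e he
      rw [e1]
      exact h3 l hl hlY e he
    · rintro t ⟨h1, -, -⟩ t' ⟨h1', -, -⟩ h
      dsimp only at h
      omega
  refine ⟨Z.image (fun t => b' + 2 * q * t), ?_, ?_⟩
  · rw [card_image_of_injective _ (by
      intro t t' h
      have h' : b' + 2 * q * t = b' + 2 * q * t' := h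
      have : 2 * q * t = 2 * q * t' := by omega
      exact Nat.eq_of_mul_eq_mul_left (by omega) this)]
    exact hmain.trans (Nat.mul_le_mul_left _ hZ)
  · intro w hw
    rw [mem_image] at hw
    obtain ⟨t, ht, rfl⟩ := hw
    rw [hZdef, mem_filter, mem_Ico] at ht
    obtain ⟨⟨ht1, ht2⟩, ht3⟩ := ht
    refine ⟨?_, ?_, ?_, ?_⟩
    · have h1 : b' + 2 * q * t ≡ b' [MOD q] := by
        have : b' + 2 * q * t = b' + q * (2 * t) := by ring
        rw [this]
        simp [Nat.ModEq]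
      exact h1.trans hb1
    · nlinarith
    · nlinarith
    · intro p hp hd
      by_contra hcon
      push Not at hcon
      have hd' : (p : ℤ) ∣ (b' : ℤ) + ((2 * q : ℕ) : ℤ) * t := by
        have : ((b' + 2 * q * t : ℕ) : ℤ) = (b' : ℤ) + ((2 * q : ℕ) : ℤ) * t := by push_cast; ring
        rw [← this]
        exact Int.natCast_dvd_natCast.2 hd
      by_cases h2 : (p : ℤ) ∣ ((2 * q : ℕ) : ℤ)
      · have h3 : (p : ℤ) ∣ (b' : ℤ) := (Int.dvd_add_left (h2.mul_right _)).1 hd'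
        have h4 : p ∣ Nat.gcd b' (2 * q) :=
          Nat.dvd_gcd (Int.natCast_dvd_natCast.1 h3) (Int.natCast_dvd_natCast.1 h2)
        rw [hb2] at h4
        exact hp.one_lt.ne' (Nat.dvd_one.1 h4)
      · have h5 : ¬ p ≤ 2 := by
          intro h5
          have : p = 2 := le_antisymm h5 hp.two_le
          apply h2
          rw [this]
          push_cast
          exact dvd_mul_right _ _
        apply ht3 p hp hcon (s p)
        · rw [hSdef]
          dsimp only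
          rw [if_neg h2, if_neg h5]
          exact mem_singleton_self _
        · have h6 := hs p hp h2
          have h7 : (p : ℤ) ∣ ((2 * q : ℕ) : ℤ) * ((t : ℤ) - s p) := by
            have := dvd_sub hd' h6
            have e : (b' : ℤ) + ((2 * q : ℕ) : ℤ) * t - ((b' : ℤ) + ((2 * q : ℕ) : ℤ) * s p) =
              ((2 * q : ℕ) : ℤ) * ((t : ℤ) - s p) := by ring
            rwa [e] at this
          exact ((Nat.prime_iff_prime_int.1 hp).dvd_mul.1 h7).resolve_left h2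

/-- two rough pairs -/
theorem pairs {C : ℕ} (hS : SVG 2 C) (m c₀ c₁ Y : ℕ) (hY : 2 ≤ Y) (hm6 : 6 ∣ m)
    (hm : ∀ l : ℕ, l.Prime → l ≤ Y → l ∣ m → l ≤ 3) (h0 : c₀ ≡ 1 [MOD 6]) (h1 : c₁ ≡ 1 [MOD 6]) :
    ∃ t t' : ℕ, t < t' ∧ t' ≤ 2 * Y ^ C ∧ RoughN Y (c₀ + m * t) ∧ RoughN Y (c₁ + m * t) ∧
      RoughN Y (c₀ + m * t') ∧ RoughN Y (c₁ + m * t') := by
  classical
  have hex : ∀ c l : ℕ, ∃ s : ℤ, l.Prime → ¬ (l : ℤ) ∣ (m : ℤ) → (l : ℤ) ∣ (c : ℤ) + (m : ℤ) * s := by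
    intro c l
    by_cases h : l.Prime ∧ ¬ (l : ℤ) ∣ (m : ℤ)
    · obtain ⟨s, hs⟩ := exists_dvd l h.1 _ (c : ℤ) h.2
      exact ⟨s, fun _ _ => hs⟩
    · exact ⟨0, fun h1 h2 => absurd ⟨h1, h2⟩ h⟩
  choose s hs using hex
  obtain ⟨S, hSdef⟩ : ∃ S : ℕ → Finset ℤ, S = fun l : ℕ => if l ≤ 4 then ∅ else {s c₀ l, s c₁ l} :=
    ⟨_, rfl⟩
  have hmain := hS Y hY S (by
    intro l _
    rw [hSdef]
    dsimp only
    split_ifs
    · simp
    · exact card_le_two) (by
    intro l _ hl2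
    rw [hSdef]
    dsimp only
    rw [if_pos (by omega)]) 0 (2 * Y ^ C) (by
      have : 0 < Y ^ C := by positivity
      omega)
  obtain ⟨Z, hZdef⟩ : ∃ Z : Finset ℕ, Z = (Finset.range (2 * Y ^ C)).filter (fun t : ℕ =>
    ∀ l : ℕ, l.Prime → l ≤ Y → ∀ e ∈ S l, ¬ (l : ℤ) ∣ (t : ℤ) - e) := ⟨_, rfl⟩
  have hZ : {t : ℤ | 0 ≤ t ∧ t < 0 + ((2 * Y ^ C : ℕ) : ℤ) ∧
      ∀ l : ℕ, l.Prime → l ≤ Y → ∀ e ∈ S l, ¬ (l : ℤ) ∣ t - e}.ncard ≤ Z.card := by
    rw [← Set.ncard_coe_finset]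
    refine Set.ncard_le_ncard_of_injOn (fun t : ℤ => t.toNat) ?_ ?_ (Finset.finite_toSet _)
    · rintro t ⟨h1, h2, h3⟩
      have e1 : ((t.toNat : ℕ) : ℤ) = t := Int.toNat_of_nonneg (by omega)
      rw [hZdef, mem_coe, mem_filter, mem_range]
      refine ⟨by omega, ?_⟩
      intro l hl hlY e he
      rw [e1]
      exact h3 l hl hlY e he
    · rintro t ⟨h1, -, -⟩ t' ⟨h1', -, -⟩ h
      dsimp only at h
      omega
  have hcard : 1 < Z.card := by
    have h3 : 2 * Y ^ C ≤ Y ^ C * Z.card := hmain.trans (Nat.mul_le_mul_left _ hZ)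
    have h4 : 0 < Y ^ C := by positivity
    by_contra h5
    have h6 : Z.card ≤ 1 := by omega
    have h7 : Y ^ C * Z.card ≤ Y ^ C * 1 := Nat.mul_le_mul_left _ h6
    omega
  have hrough : ∀ t ∈ Z, RoughN Y (c₀ + m * t) ∧ RoughN Y (c₁ + m * t) := by
    intro t ht
    rw [hZdef, mem_filter, mem_range] at ht
    have key : ∀ c : ℕ, c ≡ 1 [MOD 6] → (∀ l : ℕ, ¬ l ≤ 4 → s c l ∈ S l) → RoughN Y (c + m * t) := by
      intro c hc hcS p hp hd
      by_contra hcon
      push Not at hcon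
      by_cases h2 : p ∣ m
      · have h3 := hm p hp hcon h2
        have h4 : p ∣ c := (Nat.dvd_add_left (h2.mul_right _)).1 hd
        have h5 : p ∣ 6 := by
          have := hp.two_le
          interval_cases p <;> norm_num
        have h6 : p ∣ 1 := by
          have h7 : c ≡ 1 [MOD p] := hc.of_dvd h5
          have h8 := (Nat.modEq_zero_iff_dvd.2 h4).symm.trans h7
          exact Nat.modEq_zero_iff_dvd.1 h8.symm
        exact hp.one_lt.ne' (Nat.dvd_one.1 h6)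
      · have h5 : ¬ p ≤ 4 := by
          intro h5
          apply h2
          have := hp.two_le
          have hp4 : p ≠ 4 := by
            rintro rfl
            exact absurd hp (by norm_num)
          have : p ∣ 6 := by
            interval_cases p
            · norm_num
            · norm_num
            · exact absurd rfl hp4
          exact this.trans hm6
        have h2' : ¬ (p : ℤ) ∣ (m : ℤ) := fun h => h2 (Int.natCast_dvd_natCast.1 h)
        apply ht.2 p hp hcon (s c p) (hcS p h5)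
        have h6 := hs c p hp h2'
        have hd' : (p : ℤ) ∣ (c : ℤ) + (m : ℤ) * t := by
          have : ((c + m * t : ℕ) : ℤ) = (c : ℤ) + (m : ℤ) * t := by push_cast; ring
          rw [← this]
          exact Int.natCast_dvd_natCast.2 hd
        have h7 : (p : ℤ) ∣ (m : ℤ) * ((t : ℤ) - s c p) := by
          have := dvd_sub hd' h6
          have e : (c : ℤ) + (m : ℤ) * t - ((c : ℤ) + (m : ℤ) * s c p) =
            (m : ℤ) * ((t : ℤ) - s c p) := by ring
          rwa [e] at this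
        exact ((Nat.prime_iff_prime_int.1 hp).dvd_mul.1 h7).resolve_left h2'
    constructor
    · refine key c₀ h0 ?_
      intro l hl
      rw [hSdef]
      dsimp only
      rw [if_neg hl]
      exact mem_insert_self _ _
    · refine key c₁ h1 ?_
      intro l hl
      rw [hSdef]
      dsimp only
      rw [if_neg hl]
      exact mem_insert_of_mem (mem_singleton_self _)
  obtain ⟨t, ht, t', ht', hne⟩ := Finset.one_lt_card.1 hcard
  have hlt : ∀ t ∈ Z, t < 2 * Y ^ C := by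
    intro t ht
    rw [hZdef, mem_filter, mem_range] at ht
    exact ht.1
  rcases lt_or_gt_of_ne hne with h | h
  · exact ⟨t, t', h, (hlt t' ht').le, (hrough t ht).1, (hrough t ht).2, (hrough t' ht').1,
      (hrough t' ht').2⟩
  · exact ⟨t', t, h, (hlt t ht).le, (hrough t' ht').1, (hrough t' ht').2, (hrough t ht).1,
      (hrough t ht).2⟩

end Pool.Agent.H72.AP
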