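import Mathlib
import Pool.Agent.H72.AP.Sieve

/-!
If a function of rough integers is, modulo `H`, a function of the class modulo each of two primes
`q₁ ≠ q₂`, then it is constant modulo `H` on the rough integers `≡ 1` modulo `6`.
-/

set_option autoImplicit false

open Finset

namespace Pool.Agent.H72.AP

open Pool.Agent.H72.CG (SVG)

/-- modulo `H`, `F` is a function of the class modulo `q` on the rough integers `≤ y` coprime to `q` -/
def Per {G : Type} [AddCommGroup G] (F : ℕ → G) (Y : ℕ) (y : ℕ) (q : ℕ) (H : AddSubgroup G) : Prop :=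
  ∀ u v : ℕ, 0 < u → 0 < v → u ≤ y → v ≤ y → RoughN Y u → RoughN Y v → u.Coprime q → v.Coprime q →
    u ≡ v [MOD q] → F u - F v ∈ H

theorem sub_mem_trans {G : Type} [AddCommGroup G] (H : AddSubgroup G) {a b c : G} (h1 : a - b ∈ H)
    (h2 : b - c ∈ H) : a - c ∈ H := by
  have := H.add_mem h1 h2
  rwa [sub_add_sub_cancel] at this

/-- one step of the chain -/
theorem step {G : Type} [AddCommGroup G] {C : ℕ} (hS : SVG 2 C) (F : ℕ → G) (H : AddSubgroup G)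
    (Y y q₁ q₂ : ℕ) (hY : 2 ≤ Y) (h1 : q₁.Prime) (h2 : q₂.Prime) (hY1 : Y < q₁) (h31 : 3 < q₁)
    (h32 : 3 < q₂) (hbig : 2 * Y ^ C < q₂)
    (hy : 6 * q₁ * (2 * Y ^ C + 1) + 12 * q₂ ≤ y)
    (hp1 : Per F Y y q₁ H) (hp2 : Per F Y y q₂ H) (hne : q₁ ≠ q₂) (i : ℕ) (hi : i ≤ 2)
    (u v : ℕ) (hu0 : 0 < u) (hv0 : 0 < v) (huy : u ≤ y) (hvy : v ≤ y) (hru : RoughN Y u)
    (hrv : RoughN Y v) (hcu : u.Coprime q₁) (hcv : v.Coprime q₁) (hu6 : u ≡ 1 [MOD 6])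
    (huv : v ≡ u + 6 * q₂ * i [MOD 6 * q₁]) : F u - F v ∈ H := by
  obtain ⟨c, hcdef⟩ : ∃ c : ℕ, c = u % (6 * q₁) := ⟨_, rfl⟩
  have hq0 : 0 < 6 * q₁ := by have := h1.pos; omega
  have hc : c ≡ u [MOD 6 * q₁] := by rw [hcdef]; exact Nat.mod_modEq _ _
  have hclt : c < 6 * q₁ := by rw [hcdef]; exact Nat.mod_lt _ hq0
  have hc6 : c ≡ 1 [MOD 6] := (hc.of_mul_right q₁).trans hu6
  have hc'6 : c + 6 * q₂ * i ≡ 1 [MOD 6] := by
    have : c + 6 * q₂ * i = c + 6 * (q₂ * i) := by ring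
    rw [this]
    have h3 : c + 6 * (q₂ * i) ≡ c [MOD 6] := by simp [Nat.ModEq]
    exact h3.trans hc6
  obtain ⟨t, t', htt, htT, r1, r2, r3, r4⟩ := pairs hS (6 * q₁) c (c + 6 * q₂ * i) Y hY
    (dvd_mul_right _ _) (by
      intro l hl hlY hd
      rcases (hl.dvd_mul).1 hd with h | h
      · have : l ∣ 2 * 3 := h
        rcases (hl.dvd_mul).1 this with h | h
        · have := Nat.le_of_dvd (by norm_num) h
          omega
        · exact Nat.le_of_dvd (by norm_num) h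
      · have := (Nat.prime_dvd_prime_iff_eq hl h1).1 h
        omega) hc6 hc'6
  -- the choice of the pair
  obtain ⟨s, hsT, r5, r6, hcop⟩ : ∃ s : ℕ, s ≤ 2 * Y ^ C ∧ RoughN Y (c + 6 * q₁ * s) ∧
      RoughN Y (c + 6 * q₂ * i + 6 * q₁ * s) ∧ (c + 6 * q₁ * s).Coprime q₂ := by
    by_cases h5 : (c + 6 * q₁ * t).Coprime q₂
    · exact ⟨t, by omega, r1, r2, h5⟩
    · refine ⟨t', htT, r3, r4, ?_⟩
      rw [Nat.coprime_comm, h2.coprime_iff_not_dvd, not_not] at h5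
      rw [Nat.coprime_comm, h2.coprime_iff_not_dvd]
      intro h6
      have h7 : q₂ ∣ (c + 6 * q₁ * t') - (c + 6 * q₁ * t) := Nat.dvd_sub h6 h5
      have h8 : (c + 6 * q₁ * t') - (c + 6 * q₁ * t) = 6 * q₁ * (t' - t) := by
        rw [Nat.add_sub_add_left, ← Nat.mul_sub]
      rw [h8] at h7
      rcases (h2.dvd_mul).1 h7 with h | h
      · rcases (h2.dvd_mul).1 h with h | h
        · have : q₂ ∣ 2 * 3 := h
          rcases (h2.dvd_mul).1 this with h | h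
          · have := Nat.le_of_dvd (by norm_num) h
            omega
          · have := Nat.le_of_dvd (by norm_num) h
            omega
        · exact hne ((Nat.prime_dvd_prime_iff_eq h2 h1).1 h).symm
      · have := Nat.le_of_dvd (by omega) h
        omega
  obtain ⟨n₀, hn₀⟩ : ∃ n₀ : ℕ, n₀ = c + 6 * q₁ * s := ⟨_, rfl⟩
  obtain ⟨n₁, hn₁⟩ : ∃ n₁ : ℕ, n₁ = c + 6 * q₂ * i + 6 * q₁ * s := ⟨_, rfl⟩
  rw [← hn₀] at r5 hcop
  rw [← hn₁] at r6
  have hc0 : 0 < c := by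
    rcases Nat.eq_zero_or_pos c with h | h
    · rw [h] at hc6
      exact absurd hc6 (by decide)
    · exact h
  have e1 : 6 * q₁ * s ≤ 6 * q₁ * (2 * Y ^ C) := Nat.mul_le_mul_left _ hsT
  have e2 : 6 * q₁ * (2 * Y ^ C + 1) = 6 * q₁ * (2 * Y ^ C) + 6 * q₁ := by ring
  have e3 : 6 * q₂ * i ≤ 12 * q₂ := by
    calc 6 * q₂ * i ≤ 6 * q₂ * 2 := Nat.mul_le_mul_left _ hi
      _ = 12 * q₂ := by ring
  have hn₀y : n₀ ≤ y := by omega
  have hn₁y : n₁ ≤ y := by omega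
  have m0 : n₀ ≡ u [MOD q₁] := by
    have h5 : n₀ ≡ c [MOD 6 * q₁] := by rw [hn₀]; simp [Nat.ModEq]
    exact (h5.trans hc).of_mul_left 6
  have m1 : n₁ ≡ v [MOD q₁] := by
    have h5 : n₁ ≡ c + 6 * q₂ * i [MOD 6 * q₁] := by rw [hn₁]; simp [Nat.ModEq]
    have h6 : c + 6 * q₂ * i ≡ u + 6 * q₂ * i [MOD 6 * q₁] := hc.add_right _
    exact ((h5.trans h6).trans huv.symm).of_mul_left 6
  have m01 : n₀ ≡ n₁ [MOD q₂] := by
    have : n₁ = n₀ + q₂ * (6 * i) := by rw [hn₀, hn₁]; ring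
    rw [this]
    simp [Nat.ModEq]
  have cop : ∀ {a b m : ℕ}, a ≡ b [MOD m] → b.Coprime m → a.Coprime m := by
    intro a b m h h'
    have := h.gcd_eq
    unfold Nat.Coprime at h' ⊢
    rw [this]; exact h'
  have k1 : F u - F n₀ ∈ H := hp1 u n₀ hu0 (by omega) huy hn₀y hru r5 hcu (cop m0 hcu) m0.symm
  have k2 : F n₀ - F n₁ ∈ H := hp2 n₀ n₁ (by omega) (by omega) hn₀y hn₁y r5 r6 hcop
    (cop m01.symm hcop) m01
  have k3 : F n₁ - F v ∈ H := hp1 n₁ v (by omega) hv0 hn₁y hvy r6 hrv (cop m1 hcv) hcv m1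
  exact sub_mem_trans H (sub_mem_trans H k1 k2) k3

/-- a rough integer in a class modulo `6 q₁` -/
theorem ex_rough {C : ℕ} (hS : SVG 2 C) (Y q₁ : ℕ) (hY : 2 ≤ Y) (h1 : q₁.Prime) (hY1 : Y < q₁)
    (c : ℕ) (hc6 : c ≡ 1 [MOD 6]) : ∃ w : ℕ, 0 < w ∧ w ≤ 6 * q₁ * (2 * Y ^ C + 1) ∧ RoughN Y w ∧
      w ≡ c [MOD 6 * q₁] := by
  have hq0 : 0 < 6 * q₁ := by have := h1.pos; omega
  obtain ⟨c', hcdef⟩ : ∃ c' : ℕ, c' = c % (6 * q₁) := ⟨_, rfl⟩
  have hc : c' ≡ c [MOD 6 * q₁] := by rw [hcdef]; exact Nat.mod_modEq _ _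
  have hclt : c' < 6 * q₁ := by rw [hcdef]; exact Nat.mod_lt _ hq0
  have hc6 : c' ≡ 1 [MOD 6] := (hc.of_mul_right q₁).trans hc6
  obtain ⟨t, t', htt, htT, r1, r2, r3, r4⟩ := pairs hS (6 * q₁) c' c' Y hY
    (dvd_mul_right _ _) (by
      intro l hl hlY hd
      rcases (hl.dvd_mul).1 hd with h | h
      · have : l ∣ 2 * 3 := h
        rcases (hl.dvd_mul).1 this with h | h
        · have := Nat.le_of_dvd (by norm_num) h
          omega
        · exact Nat.le_of_dvd (by norm_num) h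
      · have := (Nat.prime_dvd_prime_iff_eq hl h1).1 h
        omega) hc6 hc6
  have hc0 : 0 < c' := by
    rcases Nat.eq_zero_or_pos c' with h | h
    · rw [h] at hc6
      exact absurd hc6 (by decide)
    · exact h
  have e1 : 6 * q₁ * t ≤ 6 * q₁ * (2 * Y ^ C) := Nat.mul_le_mul_left _ (by omega)
  have e2 : 6 * q₁ * (2 * Y ^ C + 1) = 6 * q₁ * (2 * Y ^ C) + 6 * q₁ := by ring
  refine ⟨c' + 6 * q₁ * t, by omega, by omega, r1, ?_⟩
  have h5 : c' + 6 * q₁ * t ≡ c' [MOD 6 * q₁] := by simp [Nat.ModEq]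
  exact h5.trans hc

/-- the chain -/
theorem connect {G : Type} [AddCommGroup G] {C : ℕ} (hS : SVG 2 C) (F : ℕ → G) (H : AddSubgroup G)
    (Y y q₁ q₂ : ℕ) (hY : 2 ≤ Y) (h1 : q₁.Prime) (h2 : q₂.Prime) (hY1 : Y < q₁) (h31 : 3 < q₁)
    (h32 : 3 < q₂) (hbig : 2 * Y ^ C < q₂)
    (hy : 6 * q₁ * (2 * Y ^ C + 1) + 12 * q₂ ≤ y)
    (hp1 : Per F Y y q₁ H) (hp2 : Per F Y y q₂ H) (hne : q₁ ≠ q₂) :
    ∀ J u v : ℕ, 0 < u → 0 < v → u ≤ y → v ≤ y → RoughN Y u → RoughN Y v → u.Coprime q₁ →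
      v.Coprime q₁ → u ≡ 1 [MOD 6] → v ≡ u + 6 * q₂ * J [MOD 6 * q₁] → F u - F v ∈ H := by
  have cop : ∀ {a b m : ℕ}, a ≡ b [MOD m] → b.Coprime m → a.Coprime m := by
    intro a b m h h'
    have := h.gcd_eq
    unfold Nat.Coprime at h' ⊢
    rw [this]; exact h'
  intro J
  induction J using Nat.strong_induction_on with
  | _ J ih =>
    intro u v hu0 hv0 huy hvy hru hrv hcu hcv hu6 huv
    by_cases hJ : J ≤ 2
    · exact step hS F H Y y q₁ q₂ hY h1 h2 hY1 h31 h32 hbig hy hp1 hp2 hne J hJ u v hu0 hv0 huy hvy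
        hru hrv hcu hcv hu6 huv
    · push Not at hJ
      obtain ⟨i, hi1, hi2, hic⟩ : ∃ i : ℕ, 1 ≤ i ∧ i ≤ 2 ∧ (u + 6 * q₂ * i).Coprime q₁ := by
        by_cases h5 : (u + 6 * q₂ * 1).Coprime q₁
        · exact ⟨1, le_rfl, by norm_num, h5⟩
        · refine ⟨2, by norm_num, le_rfl, ?_⟩
          rw [Nat.coprime_comm, h1.coprime_iff_not_dvd, not_not] at h5
          rw [Nat.coprime_comm, h1.coprime_iff_not_dvd]
          intro h6
          have h7 : q₁ ∣ (u + 6 * q₂ * 2) - (u + 6 * q₂ * 1) := Nat.dvd_sub h6 h5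
          have h8 : (u + 6 * q₂ * 2) - (u + 6 * q₂ * 1) = 6 * q₂ := by omega
          rw [h8] at h7
          rcases (h1.dvd_mul).1 h7 with h | h
          · have : q₁ ∣ 2 * 3 := h
            rcases (h1.dvd_mul).1 this with h | h
            · have := Nat.le_of_dvd (by norm_num) h
              omega
            · have := Nat.le_of_dvd (by norm_num) h
              omega
          · exact hne ((Nat.prime_dvd_prime_iff_eq h1 h2).1 h)
      have hc6 : u + 6 * q₂ * i ≡ 1 [MOD 6] := by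
        have : u + 6 * q₂ * i = u + 6 * (q₂ * i) := by ring
        rw [this]
        have h3 : u + 6 * (q₂ * i) ≡ u [MOD 6] := by simp [Nat.ModEq]
        exact h3.trans hu6
      obtain ⟨w, hw0, hwy, hrw, hwc⟩ := ex_rough hS Y q₁ hY h1 hY1 _ hc6
      have hcw : w.Coprime q₁ := cop (hwc.of_mul_left 6) hic
      have hwy' : w ≤ y := by omega
      have k1 : F u - F w ∈ H := step hS F H Y y q₁ q₂ hY h1 h2 hY1 h31 h32 hbig hy hp1 hp2 hne i hi2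
        u w hu0 hw0 huy hwy' hru hrw hcu hcw hu6 hwc
      have k2 : F w - F v ∈ H := by
        refine ih (J - i) (by omega) w v hw0 hv0 hwy' hvy hrw hrv hcw hcv
          ((hwc.of_mul_right q₁).trans hc6) ?_
        refine huv.trans ?_
        have h5 : u + 6 * q₂ * J = (u + 6 * q₂ * i) + 6 * q₂ * (J - i) := by
          obtain ⟨d, rfl⟩ : ∃ d, J = i + d := ⟨J - i, by omega⟩
          rw [Nat.add_sub_cancel_left]
          ring
        rw [h5]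
        exact (hwc.symm).add_right _
      exact sub_mem_trans H k1 k2

/-- two different prime moduli -/
theorem const_of_two {G : Type} [AddCommGroup G] {C : ℕ} (hS : SVG 2 C) (F : ℕ → G)
    (H : AddSubgroup G) (Y y q₁ q₂ : ℕ) (hY : 2 ≤ Y) (h1 : q₁.Prime) (h2 : q₂.Prime) (hY1 : Y < q₁)
    (h31 : 3 < q₁) (h32 : 3 < q₂) (hbig : 2 * Y ^ C < q₂)
    (hy : 6 * q₁ * (2 * Y ^ C + 1) + 12 * q₂ ≤ y)
    (hp1 : Per F Y y q₁ H) (hp2 : Per F Y y q₂ H) (hne : q₁ ≠ q₂) (u v : ℕ) (hu0 : 0 < u)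
    (hv0 : 0 < v) (huy : u ≤ y) (hvy : v ≤ y) (hru : RoughN Y u) (hrv : RoughN Y v)
    (hcu : u.Coprime q₁) (hcv : v.Coprime q₁) (hu6 : u ≡ 1 [MOD 6]) (hv6 : v ≡ 1 [MOD 6]) :
    F u - F v ∈ H := by
  -- `v ≡ u + 6 q₂ J` modulo `6 q₁`
  obtain ⟨J, hJ⟩ : ∃ J : ℕ, v ≡ u + 6 * q₂ * J [MOD 6 * q₁] := by
    have hc : Nat.Coprime q₂ q₁ := (Nat.coprime_primes h2 h1).2 (Ne.symm hne)
    have : NeZero q₁ := ⟨h1.ne_zero⟩
    obtain ⟨a, ha⟩ : ∃ a : ℤ, (v : ℤ) - u = 6 * a := by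
      have h5 : (u : ℤ) ≡ v [ZMOD ((6 : ℕ) : ℤ)] := (Int.natCast_modEq_iff).2 (hu6.trans hv6.symm)
      have h6 := h5.dvd
      push_cast at h6
      exact h6
    obtain ⟨J, hJ⟩ : ∃ J : ℕ, (q₁ : ℤ) ∣ a - q₂ * J := by
      have hu : IsUnit ((q₂ : ℕ) : ZMod q₁) := (ZMod.isUnit_iff_coprime q₂ q₁).2 hc
      obtain ⟨b, hb⟩ := hu.exists_right_inv
      refine ⟨(b * (a : ZMod q₁)).val, ?_⟩
      rw [← ZMod.intCast_zmod_eq_zero_iff_dvd]
      push_cast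
      rw [ZMod.natCast_zmod_val, ← mul_assoc, hb, one_mul, sub_self]
    refine ⟨J, ?_⟩
    apply (Int.natCast_modEq_iff).1
    apply Int.ModEq.symm
    rw [Int.modEq_iff_dvd]
    obtain ⟨d, hd⟩ := hJ
    refine ⟨d, ?_⟩
    push_cast
    linear_combination ha + 6 * hd
  exact connect hS F H Y y q₁ q₂ hY h1 h2 hY1 h31 h32 hbig hy hp1 hp2 hne J u v hu0 hv0 huy hvy hru
    hrv hcu hcv hu6 hJ

end Pool.Agent.H72.AP
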