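import Mathlib
import Pool.Agent.H72.AP.Sieve

/-!
All labels in every reduced class modulo `q`, if the labels are not periodic modulo `q`.
-/

set_option autoImplicit false

open Finset

namespace Pool.Agent.H72.AP

open Pool.Agent.H72.CG (SVG exists_SVG)

/-- the sum of the labels of the prime factors of `n` (with multiplicity) -/
def label {G : Type} [AddCommGroup G] (Φ : ℕ → G) (n : ℕ) : G := (n.primeFactorsList.map Φ).sum

theorem label_mul {G : Type} [AddCommGroup G] (Φ : ℕ → G) (m n : ℕ) (hm : m ≠ 0) (hn : n ≠ 0) :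
    label Φ (m * n) = label Φ m + label Φ n := by
  unfold label
  rw [← List.sum_append, ← List.map_append]
  exact ((Nat.perm_primeFactorsList_mul hm hn).map Φ).sum_eq

theorem pow_length_le (y : ℝ) (hy : 0 ≤ y) : ∀ l : List ℕ, (∀ p ∈ l, y ≤ (p : ℝ)) →
    y ^ l.length ≤ ((l.prod : ℕ) : ℝ) := by
  intro l
  induction l with
  | nil => intro _; simp
  | cons p l ih =>
    intro h
    rw [List.length_cons, List.prod_cons, pow_succ, mul_comm, Nat.cast_mul]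
    exact mul_le_mul (h p (by simp)) (ih fun q hq => h q (by simp [hq])) (by positivity)
      (by positivity)

/-- few prime factors -/
theorem length_le (q δ E : ℝ) (hq : 1 < q) (hδ : 0 < δ) (n : ℕ) (hn : n ≠ 0) (hnE : (n : ℝ) ≤ q ^ E)
    (hr : ∀ p : ℕ, p.Prime → p ∣ n → q ^ δ < p) : n.primeFactorsList.length ≤ ⌈E / δ⌉₊ := by
  have hq0 : 0 < q := by linarith
  have g1 := pow_length_le (q ^ δ) (by positivity) n.primeFactorsList (by
    intro p hp'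
    exact (hr p (Nat.prime_of_mem_primeFactorsList hp')
      (Nat.dvd_of_mem_primeFactorsList hp')).le)
  rw [Nat.prod_primeFactorsList hn] at g1
  have g2 : q ^ (δ * (n.primeFactorsList.length : ℝ)) ≤ q ^ E := by
    rw [Real.rpow_mul hq0.le, Real.rpow_natCast]
    exact g1.trans hnE
  have g3 := (Real.rpow_le_rpow_left_iff hq).1 g2
  have g4 : (n.primeFactorsList.length : ℝ) ≤ E / δ := by
    rw [le_div_iff₀ hδ]; linarith
  exact_mod_cast g4.trans (Nat.le_ceil _)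

/-- Modulo the subgroup `H`, the label of the integers `1 ≤ u ≤ y`, coprime to `q`, all whose prime factors
are larger than `z`, is NOT a function of the class of `u` modulo `q`. -/
def NotPeriodic {G : Type} [AddCommGroup G] (Φ : ℕ → G) (q : ℕ) (z y : ℝ) (H : AddSubgroup G) : Prop :=
  ∃ u v : ℕ, 0 < u ∧ 0 < v ∧ (u : ℝ) ≤ y ∧ (v : ℝ) ≤ y ∧
    (∀ l : ℕ, l.Prime → l ∣ u * v → z < l) ∧ u.Coprime q ∧ u ≡ v [MOD q] ∧ label Φ u - label Φ v ∉ H

/-- the integers `1 < n ≤ x`, `n ≡ a` modulo `q`, which are products of at most `R` primes, all larger than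
`z`, and whose label is `g` -/
def Labelled {G : Type} [AddCommGroup G] (Φ : ℕ → G) (R : ℕ) (z x : ℝ) (q a : ℕ) (g : G) : Set ℕ :=
  {n : ℕ | 1 < n ∧ (n : ℝ) ≤ x ∧ n ≡ a [MOD q] ∧ n.primeFactorsList.length ≤ R ∧
    (∀ l : ℕ, l.Prime → l ∣ n → z < l) ∧ label Φ n = g}

theorem exists_inv (q a V : ℕ) (hq : 0 < q) (ha : a.Coprime q) (hV : V.Coprime q) :
    ∃ b : ℕ, b.Coprime q ∧ b * V ≡ a [MOD q] := by
  have : NeZero q := ⟨hq.ne'⟩
  have hu : IsUnit ((V : ℕ) : ZMod q) := (ZMod.isUnit_iff_coprime V q).2 hV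
  have hua : IsUnit ((a : ℕ) : ZMod q) := (ZMod.isUnit_iff_coprime a q).2 ha
  obtain ⟨c, hc⟩ := hu.exists_right_inv
  have e : (((c * (a : ZMod q)).val : ℕ) : ZMod q) * ((V : ℕ) : ZMod q) = ((a : ℕ) : ZMod q) := by
    rw [ZMod.natCast_zmod_val]
    calc c * (a : ZMod q) * (V : ZMod q) = ((V : ZMod q) * c) * a := by ring
      _ = a := by rw [hc, one_mul]
  refine ⟨(c * (a : ZMod q)).val, ?_, ?_⟩
  · rw [← ZMod.isUnit_iff_coprime]
    have h2 : IsUnit ((((c * (a : ZMod q)).val : ℕ) : ZMod q) * ((V : ℕ) : ZMod q)) := by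
      rw [e]; exact hua
    exact isUnit_of_mul_isUnit_left h2
  · rw [← ZMod.natCast_eq_natCast_iff]
    push_cast
    push_cast at e
    exact e

theorem core (N : ℕ) (hN : 1 ≤ N) (ε : ℝ) (hε : 0 < ε) :
    ∃ δ₀ : ℝ, 0 < δ₀ ∧ ∀ δ : ℝ, 0 < δ → δ ≤ δ₀ → ∃ q₀ : ℕ, ∀ q : ℕ, q₀ ≤ q →
      ∀ (G : Type) [AddCommGroup G] [Fintype G],
      (Fintype.card G ≤ N ∨ (∀ z : G, z + z = 0) ∧ Fintype.card G ≤ 2 ^ (N - 1)) →
      ∀ Φ : ℕ → G, (∀ H : AddSubgroup G, H ≠ ⊤ →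
        NotPeriodic Φ q ((q : ℝ) ^ δ) ((q : ℝ) ^ (1 + ε / (8 * N))) H) →
      ∀ a : ℕ, a.Coprime q → ∀ g : G, (q : ℝ) ^ (ε / 2) ≤
        ((Labelled Φ ⌈(N + ε) / δ⌉₊ ((q : ℝ) ^ δ) ((q : ℝ) ^ (N + ε)) q a g).ncard : ℝ) := by
  classical
  obtain ⟨C, hC⟩ := exists_SVG 1 le_rfl
  obtain ⟨r, rfl⟩ : ∃ r : ℕ, N = r + 1 := ⟨N - 1, by omega⟩
  have hC0 : (0 : ℝ) < 8 * ((C : ℝ) + 1) := by positivity
  refine ⟨ε / (8 * (C + 1)), by positivity, ?_⟩
  intro δ hδ hδ0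
  have hδC : δ * C ≤ ε / 8 := by
    have h1 : δ * (8 * (C + 1)) ≤ ε := by rwa [le_div_iff₀ hC0] at hδ0
    nlinarith
  have l1 : ∀ᶠ x : ℝ in Filter.atTop, (2 : ℝ) ≤ x ^ δ :=
    (tendsto_rpow_atTop hδ).eventually_ge_atTop _
  have l2 : ∀ᶠ x : ℝ in Filter.atTop, (2 : ℝ) ^ (r + 3) ≤ x ^ (ε / 4) :=
    (tendsto_rpow_atTop (by positivity)).eventually_ge_atTop _
  obtain ⟨x₁, hx₁⟩ := Filter.eventually_atTop.mp (l1.and l2)
  refine ⟨max ⌈x₁⌉₊ 2, ?_⟩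
  intro q hq G _ _ hGr Φ hΦ a ha g
  have hq2 : 2 ≤ q := (le_max_right _ _).trans hq
  have hqx₁ : x₁ ≤ (q : ℝ) := (Nat.le_ceil _).trans (by exact_mod_cast (le_max_left _ _).trans hq)
  obtain ⟨b1, b2⟩ := hx₁ q hqx₁
  have hqr : (2 : ℝ) ≤ q := by exact_mod_cast hq2
  have hq0 : (0 : ℝ) < q := by linarith
  have hq1 : (1 : ℝ) ≤ q := by linarith
  have hN0 : (0 : ℝ) < ((r + 1 : ℕ) : ℝ) := by positivity
  set Y : ℕ := ⌊(q : ℝ) ^ δ⌋₊ with hYdef
  have hY2 : 2 ≤ Y := by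
    rw [hYdef]
    exact Nat.le_floor (by exact_mod_cast b1)
  have hYz : (Y : ℝ) ≤ (q : ℝ) ^ δ := Nat.floor_le (by positivity)
  have hzY : (q : ℝ) ^ δ < (Y : ℝ) + 1 := Nat.lt_floor_add_one _
  set y : ℝ := (q : ℝ) ^ (1 + ε / (8 * ((r + 1 : ℕ) : ℝ))) with hydef
  have hy1 : 1 ≤ y := Real.one_le_rpow hq1 (by positivity)
  obtain ⟨𝒱, h0, h1, h2, h3, h4, h5⟩ := family q Y y hy1 (label Φ) (label_mul Φ) (by
    intro H hH
    obtain ⟨u, v, c1, c2, c3, c4, c5, c6, c7, c8⟩ := hΦ H hH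
    refine ⟨u, v, c1, c2, c3, c4, ?_, ?_, c6, c7, c8⟩
    · intro p hp hd
      have := c5 p hp (hd.mul_right _)
      exact_mod_cast hYz.trans_lt this
    · intro p hp hd
      have := c5 p hp (hd.mul_left _)
      exact_mod_cast hYz.trans_lt this) r
  have hfull : 𝒱.image (label Φ) = univ := by
    have hc : Fintype.card G ≤ (𝒱.image (label Φ)).card := by
      rcases hGr with hGr | ⟨h2x, hGr⟩
      · omega
      · have := (h5 h2x).1
        rw [Nat.add_sub_cancel] at hGr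
        omega
    exact (card_eq_iff_eq_univ _).1 (le_antisymm (card_le_univ _) hc)
  have himage : ∀ g : G, ∃ V ∈ 𝒱, label Φ V = g := by
    intro g
    have : g ∈ 𝒱.image (label Φ) := by rw [hfull]; exact mem_univ g
    exact mem_image.1 this
  obtain ⟨V₀, hV₀⟩ := h0
  obtain ⟨b, hb1, hb2⟩ := exists_inv q a V₀ (by omega) ha (h2 V₀ hV₀).2.2.2
  obtain ⟨M, hM⟩ : ∃ M : ℕ, M = ⌈(q : ℝ) ^ (ε / 2)⌉₊ := ⟨_, rfl⟩
  have hqe1 : (1 : ℝ) ≤ (q : ℝ) ^ (ε / 2) := Real.one_le_rpow hq1 (by positivity)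
  have hM1 : 1 ≤ M := by
    rw [hM]
    exact Nat.one_le_ceil_iff.2 (by linarith)
  have hMle : (M : ℝ) ≤ 2 * (q : ℝ) ^ (ε / 2) := by
    have := (Nat.ceil_lt_add_one (by positivity : (0 : ℝ) ≤ (q : ℝ) ^ (ε / 2))).le
    rw [← hM] at this
    linarith
  obtain ⟨T, hT⟩ : ∃ T : ℕ, T = M * 2 ^ r * Y ^ C := ⟨_, rfl⟩
  have hYCpos : 0 < Y ^ C := by positivity
  have h2rpos : 0 < 2 ^ r := by positivity
  have hYT : Y ^ C ≤ T := by
    rw [hT]
    exact Nat.le_mul_of_pos_left _ (Nat.mul_pos hM1 h2rpos)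
  obtain ⟨W, hW1, hW2⟩ := many_rough hC q (by omega) Y hY2 b hb1 T hYT
  have hWcard : M * 2 ^ r ≤ W.card := by
    rw [hT, mul_comm (M * 2 ^ r)] at hW1
    exact Nat.le_of_mul_le_mul_left hW1 hYCpos
  have hT1 : 1 ≤ T := le_trans hYCpos hYT
  -- the bound
  have hYC : ((Y ^ C : ℕ) : ℝ) ≤ (q : ℝ) ^ (ε / 8) := by
    push_cast
    calc (Y : ℝ) ^ C ≤ ((q : ℝ) ^ δ) ^ C := pow_le_pow_left₀ (Nat.cast_nonneg _) hYz C
      _ = (q : ℝ) ^ (δ * C) := by rw [Real.rpow_mul hq0.le, Real.rpow_natCast]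
      _ ≤ (q : ℝ) ^ (ε / 8) := Real.rpow_le_rpow_of_exponent_le hq1 hδC
  have hyr : y ^ r ≤ (q : ℝ) ^ ((r : ℝ) + ε / 8) := by
    rw [hydef, ← Real.rpow_natCast, ← Real.rpow_mul hq0.le]
    apply Real.rpow_le_rpow_of_exponent_le hq1
    have e1 : ε / (8 * ((r + 1 : ℕ) : ℝ)) * r ≤ ε / 8 := by
      rw [div_mul_eq_mul_div, div_le_div_iff₀ (by positivity) (by norm_num)]
      push_cast
      nlinarith
    linarith
  have hbound : y ^ r * (2 * q * (T + 1)) ≤ (q : ℝ) ^ (((r + 1 : ℕ) : ℝ) + ε) := by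
    have e1 : (T : ℝ) + 1 ≤ 2 * T := by
      have : (1 : ℝ) ≤ T := by exact_mod_cast hT1
      linarith
    have e2 : (T : ℝ) ≤ 2 * (q : ℝ) ^ (ε / 2) * 2 ^ r * (q : ℝ) ^ (ε / 8) := by
      rw [hT]
      push_cast
      push_cast at hYC
      have e3 : (M : ℝ) * 2 ^ r ≤ 2 * (q : ℝ) ^ (ε / 2) * 2 ^ r :=
        mul_le_mul_of_nonneg_right hMle (by positivity)
      exact mul_le_mul e3 hYC (by positivity) (by positivity)
    have e4 : y ^ r * (2 * q * (T + 1)) ≤ (q : ℝ) ^ ((r : ℝ) + ε / 8) *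
        (2 * q * (2 * (2 * (q : ℝ) ^ (ε / 2) * 2 ^ r * (q : ℝ) ^ (ε / 8)))) := by
      apply mul_le_mul hyr _ (by positivity) (by positivity)
      apply mul_le_mul_of_nonneg_left _ (by positivity)
      linarith
    refine e4.trans ?_
    have e5 : (q : ℝ) ^ ((r : ℝ) + ε / 8) *
        (2 * q * (2 * (2 * (q : ℝ) ^ (ε / 2) * 2 ^ r * (q : ℝ) ^ (ε / 8)))) =
        2 ^ (r + 3) * ((q : ℝ) ^ ((r : ℝ) + ε / 8) * (q : ℝ) ^ (1 : ℝ) * (q : ℝ) ^ (ε / 2) *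
          (q : ℝ) ^ (ε / 8)) := by
      rw [Real.rpow_one]; ring
    rw [e5, ← Real.rpow_add hq0, ← Real.rpow_add hq0, ← Real.rpow_add hq0]
    have e6 : (q : ℝ) ^ (((r + 1 : ℕ) : ℝ) + ε) = (q : ℝ) ^ (ε / 4) *
        (q : ℝ) ^ ((r : ℝ) + ε / 8 + 1 + ε / 2 + ε / 8) := by
      rw [← Real.rpow_add hq0]
      congr 1
      push_cast
      ring
    rw [e6]
    exact mul_le_mul_of_nonneg_right b2 (by positivity)
  -- the count
  choose Vf hVf1 hVf2 using himage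
  set L : Set ℕ := Labelled Φ ⌈(((r + 1 : ℕ) : ℝ) + ε) / δ⌉₊ ((q : ℝ) ^ δ)
    ((q : ℝ) ^ (((r + 1 : ℕ) : ℝ) + ε)) q a g with hL
  have hLfin : L.Finite := by
    apply (Set.finite_Iic ⌊(q : ℝ) ^ (((r + 1 : ℕ) : ℝ) + ε)⌋₊).subset
    rintro n ⟨-, k2, -⟩
    exact Nat.le_floor k2
  have hmap : ∀ w ∈ W, Vf (g - label Φ w) * w ∈ L := by
    intro w hw
    obtain ⟨w1, w2, w3, w4⟩ := hW2 w hw
    obtain ⟨v1, v2, v3, v4⟩ := h2 _ (hVf1 (g - label Φ w))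
    have hw0 : w ≠ 0 := by omega
    have hr : ∀ l : ℕ, l.Prime → l ∣ Vf (g - label Φ w) * w → (q : ℝ) ^ δ < l := by
      intro l hl hd
      have h6 : Y + 1 ≤ l := (v3.mul w4) l hl hd
      calc (q : ℝ) ^ δ < (Y : ℝ) + 1 := hzY
        _ ≤ l := by exact_mod_cast h6
    have hle : ((Vf (g - label Φ w) * w : ℕ) : ℝ) ≤ (q : ℝ) ^ (((r + 1 : ℕ) : ℝ) + ε) := by
      refine le_trans ?_ hbound
      push_cast
      refine mul_le_mul v2 ?_ (Nat.cast_nonneg _) (by positivity)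
      exact_mod_cast w3
    refine ⟨?_, hle, ?_, ?_, hr, ?_⟩
    · calc 1 < w := w2
        _ = 1 * w := (one_mul w).symm
        _ ≤ Vf (g - label Φ w) * w := Nat.mul_le_mul_right _ v1
    · have k1 : Vf (g - label Φ w) ≡ V₀ [MOD q] := h3 _ (hVf1 _) _ hV₀
      have k2 : Vf (g - label Φ w) * w ≡ V₀ * b [MOD q] := k1.mul w1
      rw [mul_comm V₀ b] at k2
      exact k2.trans hb2
    · exact length_le q δ _ (by linarith) hδ _ (Nat.mul_ne_zero v1.ne' hw0) hle hr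
    · rw [label_mul Φ _ _ v1.ne' hw0, hVf2, sub_add_cancel]
  have hcard : W.card ≤ hLfin.toFinset.card * 𝒱.card := by
    rw [← card_product]
    apply card_le_card_of_injOn (fun w => (Vf (g - label Φ w) * w, Vf (g - label Φ w)))
    · intro w hw
      rw [mem_coe] at hw
      rw [mem_coe, mem_product]
      exact ⟨hLfin.mem_toFinset.2 (hmap w hw), hVf1 _⟩
    · intro w hw w' hw' hww
      rw [mem_coe] at hw hw'
      rw [Prod.mk.injEq] at hww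
      obtain ⟨k1, k2⟩ := hww
      rw [k2] at k1
      exact Nat.eq_of_mul_eq_mul_left (h2 _ (hVf1 (g - label Φ w'))).1 k1
  rw [Set.ncard_eq_toFinset_card L hLfin]
  have hfin : M ≤ hLfin.toFinset.card := by
    have k1 : M * 2 ^ r ≤ hLfin.toFinset.card * 2 ^ r :=
      (hWcard.trans hcard).trans (Nat.mul_le_mul_left _ h1)
    exact Nat.le_of_mul_le_mul_right k1 h2rpos
  calc (q : ℝ) ^ (ε / 2) ≤ M := by rw [hM]; exact Nat.le_ceil _
    _ ≤ _ := by exact_mod_cast hfin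

end Pool.Agent.H72.AP
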