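import Mathlib
import Pool.Agent.H72.AP.Sieve

/-!
If a class modulo `q` is not a product of two rough integers with given labels in `ZMod 2`, then the label
is a function of the class modulo `q`.
-/

set_option autoImplicit false

open Finset

namespace Pool.Agent.H72.AP

theorem zmod2_cases (t : ZMod 2) : t = 0 ∨ t = 1 := by
  revert t
  decide

theorem two_products (q : ℕ) [NeZero q] (F : ℕ → ZMod 2)
    (hF : ∀ m n : ℕ, m ≠ 0 → n ≠ 0 → F (m * n) = F m + F n) (Y y' y l : ℕ) (hl : RoughN Y l)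
    (hl1 : F l = 1) (hl0 : 1 < l) (hlq : l.Coprime q) (hly : y' * l ≤ y)
    (hcov : ∀ b : (ZMod q)ˣ, ∃ n : ℕ, 1 < n ∧ n ≤ y' ∧ RoughN Y n ∧ ((n : ℕ) : ZMod q) = b)
    (x : (ZMod q)ˣ) (t₁ t₂ : ZMod 2)
    (hx : ¬ ∃ a₁ a₂ : ℕ, (1 < a₁ ∧ a₁ ≤ y ∧ RoughN Y a₁ ∧ F a₁ = t₁) ∧
      (1 < a₂ ∧ a₂ ≤ y ∧ RoughN Y a₂ ∧ F a₂ = t₂) ∧ ((a₁ * a₂ : ℕ) : ZMod q) = x)
    (u v : ℕ) (hu : 1 < u) (hv : 1 < v) (huy : u ≤ y') (hvy : v ≤ y') (hru : RoughN Y u)
    (hrv : RoughN Y v) (hcu : u.Coprime q) (huv : u ≡ v [MOD q]) : F u = F v := by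
  classical
  let B : ZMod 2 → ℕ → Finset (ZMod q)ˣ := fun t z => univ.filter (fun b : (ZMod q)ˣ =>
    ∃ n : ℕ, 1 < n ∧ n ≤ z ∧ RoughN Y n ∧ ((n : ℕ) : ZMod q) = b ∧ F n = t)
  have hB : ∀ (t : ZMod 2) (z : ℕ) (b : (ZMod q)ˣ), b ∈ B t z ↔
      ∃ n : ℕ, 1 < n ∧ n ≤ z ∧ RoughN Y n ∧ ((n : ℕ) : ZMod q) = b ∧ F n = t := by
    intro t z b
    simp only [B, mem_filter, mem_univ, true_and]
  -- the two sets are small
  have h1 : (B t₁ y).card + (B t₂ y).card ≤ Fintype.card (ZMod q)ˣ := by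
    have g1 : (B t₁ y).card = ((B t₁ y).image (fun b => x * b⁻¹)).card := by
      rw [card_image_of_injective]
      intro b b' h
      have h' : x * b⁻¹ = x * b'⁻¹ := h
      exact inv_injective (mul_left_cancel h')
    have g2 : Disjoint ((B t₁ y).image (fun b => x * b⁻¹)) (B t₂ y) := by
      rw [Finset.disjoint_left]
      intro c hc hc'
      rw [mem_image] at hc
      obtain ⟨b, hb, rfl⟩ := hc
      obtain ⟨a₁, k1, k2, k3, k4, k5⟩ := (hB _ _ _).1 hb
      obtain ⟨a₂, m1, m2, m3, m4, m5⟩ := (hB _ _ _).1 hc'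
      apply hx
      refine ⟨a₁, a₂, ⟨k1, k2, k3, k5⟩, ⟨m1, m2, m3, m5⟩, ?_⟩
      push_cast
      rw [k4, m4, ← Units.val_mul]
      congr 1
      rw [mul_comm x, mul_inv_cancel_left]
    rw [g1, ← card_union_of_disjoint g2]
    exact card_le_univ _
  -- comparison of the sets
  have h2 : ∀ s t : ZMod 2, (B s y').card ≤ (B t y).card := by
    intro s t
    by_cases hst : s = t
    · rw [hst]
      apply card_le_card
      intro b hb
      obtain ⟨n, k1, k2, k3, k4, k5⟩ := (hB _ _ _).1 hb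
      refine (hB _ _ _).2 ⟨n, k1, ?_, k3, k4, k5⟩
      calc n ≤ y' := k2
        _ = y' * 1 := (mul_one _).symm
        _ ≤ y' * l := Nat.mul_le_mul_left _ hl0.le
        _ ≤ y := hly
    · have hst' : 1 + s = t := by
        revert hst
        revert s t
        decide
      let lu : (ZMod q)ˣ := ZMod.unitOfCoprime l hlq
      rw [← card_image_of_injective (B s y') (mul_right_injective lu)]
      apply card_le_card
      intro c hc
      rw [mem_image] at hc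
      obtain ⟨b, hb, rfl⟩ := hc
      obtain ⟨n, k1, k2, k3, k4, k5⟩ := (hB _ _ _).1 hb
      refine (hB _ _ _).2 ⟨l * n, ?_, ?_, hl.mul k3, ?_, ?_⟩
      · calc 1 < l := hl0
          _ = l * 1 := (mul_one _).symm
          _ ≤ l * n := Nat.mul_le_mul_left _ k1.le
      · calc l * n ≤ l * y' := Nat.mul_le_mul_left _ k2
          _ = y' * l := mul_comm _ _
          _ ≤ y := hly
      · push_cast
        rw [k4]
        simp [lu]
      · rw [hF _ _ (by omega) (by omega), hl1, k5, hst']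
  have h3 : B 0 y' ∪ B 1 y' = univ := by
    rw [eq_univ_iff_forall]
    intro b
    obtain ⟨n, k1, k2, k3, k4⟩ := hcov b
    rw [mem_union]
    rcases zmod2_cases (F n) with h | h
    · exact Or.inl ((hB _ _ _).2 ⟨n, k1, k2, k3, k4, h⟩)
    · exact Or.inr ((hB _ _ _).2 ⟨n, k1, k2, k3, k4, h⟩)
  have h4 : B 0 y' ∩ B 1 y' = ∅ := by
    rw [← card_eq_zero]
    have g1 := card_union_add_card_inter (B 0 y') (B 1 y')
    rw [h3, card_univ] at g1
    have g2 := h2 0 t₁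
    have g3 := h2 1 t₂
    omega
  by_contra hne
  obtain ⟨b, hb⟩ : ∃ b : (ZMod q)ˣ, ((u : ℕ) : ZMod q) = b :=
    ⟨ZMod.unitOfCoprime u hcu, by simp⟩
  have hbv : ((v : ℕ) : ZMod q) = b := by
    rw [← hb]
    exact ((ZMod.natCast_eq_natCast_iff _ _ _).2 huv).symm
  have mu : b ∈ B (F u) y' := (hB _ _ _).2 ⟨u, hu, huy, hru, hb, rfl⟩
  have mv : b ∈ B (F v) y' := (hB _ _ _).2 ⟨v, hv, hvy, hrv, hbv, rfl⟩
  have hmem : b ∈ B 0 y' ∩ B 1 y' := by
    rw [mem_inter]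
    rcases zmod2_cases (F u) with h | h <;> rcases zmod2_cases (F v) with h' | h'
    · exact absurd (h.trans h'.symm) hne
    · rw [h] at mu; rw [h'] at mv; exact ⟨mu, mv⟩
    · rw [h] at mu; rw [h'] at mv; exact ⟨mv, mu⟩
    · exact absurd (h.trans h'.symm) hne
  rw [h4] at hmem
  exact absurd hmem (notMem_empty _)

end Pool.Agent.H72.AP
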